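import Pool.Agent.T9h20.TE.Spec

/-!
# The number of zeros in an interval (piece (G))
-/

set_option autoImplicit false

open MeasureTheory Set Filter Topology
open scoped ENNReal NNReal

namespace Pool.Agent.T9h48.TE

open Pool.Agent.T9h20.TA (mon fn PP)
open Pool.Agent.T9h20.TE

variable {k q t : ℕ}

theorem FF_cons (b d : Fin k → ℝ) (al : Fin k → Fin q → ℕ) (c a v : Fin q → Fin t → ℝ)
    (e y : ℝ) :
    FF (Fin.cons e b : Fin (k + 1) → ℝ) (Fin.cons 0 d : Fin (k + 1) → ℝ)
      (Fin.cons (fun _ => 0) al : Fin (k + 1) → Fin q → ℕ) c a v y =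
      FF b d al c a v y + e := by
  unfold FF
  rw [Fin.sum_univ_succ]
  simp [add_comm]

theorem cont_v (b d : Fin k → ℝ) (al : Fin k → Fin q → ℕ) (c a : Fin q → Fin t → ℝ) (y : ℝ) :
    Continuous fun v : Fin q → Fin t → ℝ => FF b d al c a v y := by
  unfold FF fn
  fun_prop

theorem an_y (b d : Fin k → ℝ) (al : Fin k → Fin q → ℕ) (c a v : Fin q → Fin t → ℝ) :
    AnalyticOnNhd ℝ (FF b d al c a v) univ := by
  intro y _
  unfold FF fn mon
  fun_prop

theorem cont_y (b d : Fin k → ℝ) (al : Fin k → Fin q → ℕ) (c a v : Fin q → Fin t → ℝ) :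
    Continuous (FF b d al c a v) := by
  have h := (an_y b d al c a v).continuousOn
  rwa [continuousOn_univ] at h

theorem isolated (b d : Fin k → ℝ) (al : Fin k → Fin q → ℕ) (c a v : Fin q → Fin t → ℝ)
    (h : ¬ ∀ y, FF b d al c a v y = 0) (y : ℝ) :
    ∀ᶠ x in 𝓝[≠] y, FF b d al c a v x ≠ 0 := by
  rcases (an_y b d al c a v y (mem_univ _)).eventually_eq_zero_or_eventually_ne_zero with h1 | h1
  · exfalso
    apply h
    have h2 := (an_y b d al c a v).eqOn_zero_of_preconnected_of_eventuallyEq_zero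
      isPreconnected_univ (mem_univ y) h1
    intro x
    exact h2 (mem_univ x)
  · exact h1

/-- a change between two points -/
def ev (b d : Fin k → ℝ) (al : Fin k → Fin q → ℕ) (c a : Fin q → Fin t → ℝ) (e y y' : ℝ) :
    Set (Fin q → Fin t → ℝ) :=
  {v | ¬(0 ≤ FF b d al c a v y + e ↔ 0 ≤ FF b d al c a v y' + e)}

theorem meas_ev (b d : Fin k → ℝ) (al : Fin k → Fin q → ℕ) (c a : Fin q → Fin t → ℝ)
    (e y y' : ℝ) : MeasurableSet (ev b d al c a e y y') := by
  have h : ∀ y, MeasurableSet {v : Fin q → Fin t → ℝ | 0 ≤ FF b d al c a v y + e} := fun y =>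
    measurableSet_le measurable_const ((cont_v b d al c a y).measurable.add_const e)
  have h1 : ev b d al c a e y y' = symmDiff {v | 0 ≤ FF b d al c a v y + e}
      {v | 0 ≤ FF b d al c a v y' + e} := by
    ext v
    unfold ev
    rw [Set.mem_symmDiff]
    simp only [mem_ofPred_eq]
    tauto
  rw [h1]
  exact (h y).symmDiff (h y')

theorem chg_eq (b d : Fin k → ℝ) (al : Fin k → Fin q → ℕ) (c a : Fin q → Fin t → ℝ)
    (e : ℝ) (y : ℕ → ℝ) (L : ℕ) (v : Fin q → Fin t → ℝ) :
    (chg (fun l => 0 ≤ FF b d al c a v (y l) + e) L : ℝ≥0∞) =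
      ∑ l ∈ Finset.range L, (ev b d al c a e (y l) (y (l + 1))).indicator (fun _ => 1) v := by
  classical
  unfold chg
  rw [Finset.card_filter]
  push_cast
  refine Finset.sum_congr rfl fun l _ => ?_
  by_cases h : v ∈ ev b d al c a e (y l) (y (l + 1))
  · rw [indicator_of_mem h, if_pos]
    exact h
  · rw [indicator_of_notMem h, if_neg]
    exact h

theorem meas_chg (b d : Fin k → ℝ) (al : Fin k → Fin q → ℕ) (c a : Fin q → Fin t → ℝ)
    (e : ℝ) (y : ℕ → ℝ) (L : ℕ) :
    Measurable fun v => (chg (fun l => 0 ≤ FF b d al c a v (y l) + e) L : ℝ≥0∞) := by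
  simp only [chg_eq]
  exact Finset.measurable_fun_sum _ fun l _ => measurable_const.indicator (meas_ev ..)

theorem lint_chg (b d : Fin k → ℝ) (al : Fin k → Fin q → ℕ) (c a : Fin q → Fin t → ℝ)
    (P : Measure (Fin q → Fin t → ℝ)) (e : ℝ) (y : ℕ → ℝ) (L : ℕ) :
    ∫⁻ v, (chg (fun l => 0 ≤ FF b d al c a v (y l) + e) L : ℝ≥0∞) ∂P =
      ∑ l ∈ Finset.range L, P {v | ¬(0 ≤ FF b d al c a v (y l) + e ↔
        0 ≤ FF b d al c a v (y (l + 1)) + e)} := by
  simp only [chg_eq]
  rw [lintegral_finsetSum _ (fun l _ => measurable_const.indicator (meas_ev ..))]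
  refine Finset.sum_congr rfl fun l _ => ?_
  rw [lintegral_indicator_const (meas_ev ..), one_mul]
  rfl

theorem enc_le (E : Set ℝ) (X : ℝ≥0∞)
    (h : ∀ Z : Finset ℝ, (Z : Set ℝ) ⊆ E → ((2 * Z.card : ℕ) : ℝ≥0∞) ≤ X) :
    2 * ((E.encard : ℕ∞) : ℝ≥0∞) ≤ X := by
  by_cases hE : E.Finite
  · have h1 := h hE.toFinset (by simp)
    rw [hE.encard_eq_coe_toFinset_card]
    push_cast at h1
    simpa using h1
  · have hX : X = ⊤ := by
      apply ENNReal.eq_top_of_forall_nnreal_le
      intro r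
      obtain ⟨n, hn⟩ := exists_nat_ge r
      obtain ⟨Z, hZ, hZn⟩ := Set.Infinite.exists_subset_card_eq hE n
      have h1 := h Z hZ
      rw [hZn] at h1
      refine le_trans ?_ h1
      have h2 : (r : ℝ≥0∞) ≤ (n : ℝ≥0∞) := by exact_mod_cast hn
      refine h2.trans ?_
      exact_mod_cast (by omega : n ≤ 2 * n)
    rw [hX]
    exact le_top

theorem gp_mono {p r : ℝ} (h : p < r) (n : ℕ) : Monotone (gp p r n) := by
  intro l l' hl
  unfold gp
  have h1 : (l : ℝ) / n ≤ (l' : ℝ) / n :=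
    div_le_div_of_nonneg_right (by exact_mod_cast hl) (Nat.cast_nonneg n)
  have h2 := mul_le_mul_of_nonneg_left h1 (sub_nonneg.2 h.le)
  linarith

theorem win : SGrid → SPath → SWin := by
  intro hG hP k q t b d al c a μ _ A hSh hA s0 hc p r hpr
  obtain ⟨S, hS⟩ : ∃ S, S = ∑ j, ∑ s, ‖WW (c j) (a j) (s0 j) s r -
    WW (c j) (a j) (s0 j) s p‖ₑ := ⟨_, rfl⟩
  rw [← hS]
  -- the bound for one grid
  have hgrid : ∀ (e : ℝ) (n : ℕ), 1 ≤ n →
      ∫⁻ v, (chg (fun l => 0 ≤ FF b d al c a v (gp p r n l) + e) n : ℝ≥0∞) ∂(PP μ) ≤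
        (k : ℝ≥0∞) + (3 * k + 2) * A * S := by
    intro e n hn
    have h1 := hG (k + 1) q t (Fin.cons e b : Fin (k + 1) → ℝ) (Fin.cons 0 d : Fin (k + 1) → ℝ)
      (Fin.cons (fun _ => 0) al : Fin (k + 1) → Fin q → ℕ) c a μ A hSh hA s0 hc n (gp p r n)
      (gp_mono hpr n)
    have hn0 : (n : ℝ) ≠ 0 := by exact_mod_cast (by omega : n ≠ 0)
    have e1 : gp p r n n = r := by
      unfold gp
      rw [div_self hn0]
      ring
    have e2 : gp p r n 0 = p := by
      unfold gp
      simp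
    rw [e1, e2, ← hS] at h1
    simp only [FF_cons] at h1
    rw [lint_chg]
    refine h1.trans (le_of_eq ?_)
    rw [Nat.add_sub_cancel]
    push_cast
    ring
  -- the two limits
  have hkey : ∀ v, 2 * NN b d al c a p r v ≤
      liminf (fun m : ℕ => liminf (fun n : ℕ =>
        (chg (fun l => 0 ≤ FF b d al c a v (gp p r n l) + -(1 / ((m : ℝ) + 1))) n : ℝ≥0∞) +
        (chg (fun l => 0 ≤ FF b d al c a v (gp p r n l) + 1 / ((m : ℝ) + 1)) n : ℝ≥0∞)) atTop)
        atTop := by
    intro v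
    unfold NN
    split_ifs with h0
    · simp
    · apply enc_le
      intro Z hZ
      have h1 := hP (FF b d al c a v) p r hpr (cont_y b d al c a v) Z
        (fun y hy => hZ hy) (fun y _ => isolated b d al c a v h0 y)
      have hlim : Tendsto (fun m : ℕ => 1 / ((m : ℝ) + 1)) atTop (𝓝[>] (0 : ℝ)) := by
        rw [tendsto_nhdsWithin_iff]
        refine ⟨tendsto_one_div_add_atTop_nhds_zero_nat, Eventually.of_forall fun m => ?_⟩
        show (0 : ℝ) < _
        positivity
      apply le_liminf_of_le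
      · isBoundedDefault
      filter_upwards [hlim.eventually h1] with m hm
      apply le_liminf_of_le
      · isBoundedDefault
      filter_upwards [hm] with n hn
      simp only [sub_eq_add_neg] at hn
      exact_mod_cast hn
  have hmeas : ∀ (m n : ℕ), Measurable fun v =>
      (chg (fun l => 0 ≤ FF b d al c a v (gp p r n l) + -(1 / ((m : ℝ) + 1))) n : ℝ≥0∞) +
        (chg (fun l => 0 ≤ FF b d al c a v (gp p r n l) + 1 / ((m : ℝ) + 1)) n : ℝ≥0∞) :=
    fun m n => (meas_chg ..).add (meas_chg ..)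
  have h2 : 2 * ∫⁻ v, NN b d al c a p r v ∂(PP μ) ≤
      2 * ((k : ℝ≥0∞) + (3 * k + 2) * A * S) := by
    rw [← lintegral_const_mul' _ _ (by norm_num)]
    refine (lintegral_mono hkey).trans ?_
    refine (lintegral_liminf_le fun m => Measurable.liminf (hmeas m)).trans ?_
    apply liminf_le_of_frequently_le'
    apply Frequently.of_forall
    intro m
    refine (lintegral_liminf_le (hmeas m)).trans ?_
    apply liminf_le_of_frequently_le'
    apply Eventually.frequently
    filter_upwards [eventually_ge_atTop 1] with n hn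
    rw [lintegral_add_left (meas_chg ..), two_mul]
    exact add_le_add (hgrid _ n hn) (hgrid _ n hn)
  exact (ENNReal.mul_le_mul_iff_right (by norm_num) (by norm_num)).1 h2

end Pool.Agent.T9h48.TE
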